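import Mathlib
import Pool.Agent.H3.JPow

set_option autoImplicit false

namespace Pool.Agent.Results.MP_9e321c_nt.NotPeriodic

open Pool.Agent.H3.PowPart

theorem result (d : ℕ) (hd : 2 ≤ d) :
    ∀ m : ℕ, 2 ≤ m → ¬ ∃ T N : ℕ, 0 < T ∧ ∀ n : ℕ, N ≤ n →
      Nat.card {p : Nat.Partition (n + T) // ∀ i ∈ p.parts, ∃ k : ℕ, k ^ d = i} % m =
        Nat.card {p : Nat.Partition n // ∀ i ∈ p.parts, ∃ k : ℕ, k ^ d = i} % m :=
  (Pool.Agent.H3.JPow.joined d hd).2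

end Pool.Agent.Results.MP_9e321c_nt.NotPeriodic
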